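import Mathlib
import Pool.Agent.H27.ConvexDom

set_option autoImplicit false

namespace Pool.Agent.Results.MP_597c46_an.Q1

/-- The subdifferential of an extended-real-valued function on Euclidean space. -/
def subdiff {n : ℕ} (f : EuclideanSpace ℝ (Fin n) → EReal) (x : EuclideanSpace ℝ (Fin n)) :
    Set (EuclideanSpace ℝ (Fin n)) :=
  {u | ∀ y, f x + ((inner ℝ u (y - x) : ℝ) : EReal) ≤ f y}

theorem result (n : ℕ) (hn : 2 ≤ n) :
    ∃ C : Set (EuclideanSpace ℝ (Fin n)), C.Nonempty ∧ Convex ℝ C ∧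
      ∀ f : EuclideanSpace ℝ (Fin n) → EReal, (∀ x, f x ≠ ⊥) → (∃ x, f x ≠ ⊤) →
        LowerSemicontinuous f →
        Convex ℝ {p : EuclideanSpace ℝ (Fin n) × ℝ | f p.1 ≤ (p.2 : EReal)} →
        {x | (subdiff f x).Nonempty} ≠ C ∧ (⋃ x, subdiff f x) ≠ C := by
  obtain ⟨C, h1, h2, h3⟩ := Pool.Agent.H27.ConvexDom.exists_convex n hn
  refine ⟨C, h1, h2, fun f hbot _ hl _ => ?_⟩
  have hcl : IsClosed {p : EuclideanSpace ℝ (Fin n) × EuclideanSpace ℝ (Fin n) |
      p.2 ∈ subdiff f p.1} := by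
    have : {p : EuclideanSpace ℝ (Fin n) × EuclideanSpace ℝ (Fin n) | p.2 ∈ subdiff f p.1} =
        ⋂ y, {p | f p.1 + ((inner ℝ p.2 (y - p.1) : ℝ) : EReal) ≤ f y} := by
      ext p
      simp [subdiff]
    rw [this]
    refine isClosed_iInter (fun y => ?_)
    induction hy : f y using EReal.rec with
    | bot => exact absurd hy (hbot y)
    | top => simp
    | coe r =>
      have hc : Continuous (fun p : EuclideanSpace ℝ (Fin n) × EuclideanSpace ℝ (Fin n) =>
          (p.1, ((r - inner ℝ p.2 (y - p.1) : ℝ) : EReal))) := by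
        refine continuous_fst.prodMk (continuous_coe_real_ereal.comp ?_)
        fun_prop
      convert hl.isClosed_epigraph.preimage hc using 1
      ext p
      simp only [Set.mem_ofPred_eq, Set.mem_preimage]
      rw [EReal.coe_sub, EReal.le_sub_iff_add_le (Or.inl (EReal.coe_ne_bot _))
        (Or.inl (EReal.coe_ne_top _))]
  obtain ⟨a, b⟩ := h3 _ hcl
  constructor
  · convert a using 1
    ext x
    simp [Set.Nonempty]
  · convert b using 1
    ext x
    simp

end Pool.Agent.Results.MP_597c46_an.Q1
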