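import Mathlib
import Pool.Agent.H27.ConvexDom

set_option autoImplicit false

namespace Pool.Agent.Results.MP_597c46_an.Q2

/-- A monotone set-valued map on Euclidean space. -/
def IsMonotoneOp {n : ℕ} (A : EuclideanSpace ℝ (Fin n) → Set (EuclideanSpace ℝ (Fin n))) : Prop :=
  ∀ x y u v, u ∈ A x → v ∈ A y → 0 ≤ (inner ℝ (u - v) (x - y) : ℝ)

/-- A maximally monotone set-valued map: monotone, and equal to every monotone map whose graph
contains its graph. -/
def IsMaxMonotoneOp {n : ℕ} (A : EuclideanSpace ℝ (Fin n) → Set (EuclideanSpace ℝ (Fin n))) :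
    Prop :=
  IsMonotoneOp A ∧ ∀ B, IsMonotoneOp B → (∀ x, A x ⊆ B x) → B = A

theorem result (n : ℕ) (hn : 2 ≤ n) :
    ∃ C : Set (EuclideanSpace ℝ (Fin n)), C.Nonempty ∧ Convex ℝ C ∧
      ∀ A : EuclideanSpace ℝ (Fin n) → Set (EuclideanSpace ℝ (Fin n)), IsMaxMonotoneOp A →
        {x | (A x).Nonempty} ≠ C ∧ (⋃ x, A x) ≠ C := by
  obtain ⟨C, h1, h2, h3⟩ := Pool.Agent.H27.ConvexDom.exists_convex n hn
  refine ⟨C, h1, h2, fun A hA => ?_⟩
  have hcl : IsClosed {p : EuclideanSpace ℝ (Fin n) × EuclideanSpace ℝ (Fin n) |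
      p.2 ∈ A p.1} := by
    have : {p : EuclideanSpace ℝ (Fin n) × EuclideanSpace ℝ (Fin n) | p.2 ∈ A p.1} =
        ⋂ y, ⋂ v ∈ A y, {p | 0 ≤ (inner ℝ (p.2 - v) (p.1 - y) : ℝ)} := by
      ext ⟨x, u⟩
      simp only [Set.mem_ofPred_eq, Set.mem_iInter]
      refine ⟨fun h y v hv => hA.1 x y u v h hv, fun h => ?_⟩
      have hB : IsMonotoneOp (fun z => {w | w ∈ A z ∨ (z = x ∧ w = u)}) := by
        rintro a b c d (hc | ⟨rfl, rfl⟩) (hd | ⟨rfl, rfl⟩)
        · exact hA.1 a b c d hc hd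
        · have := h a c hc
          rw [← neg_sub c, ← neg_sub a, inner_neg_neg] at this
          exact this
        · exact h b d hd
        · simp
      have := hA.2 _ hB (fun z w hw => Or.inl hw)
      rw [← this]
      exact Or.inr ⟨rfl, rfl⟩
    rw [this]
    refine isClosed_iInter (fun y => isClosed_iInter (fun v => isClosed_iInter (fun _ => ?_)))
    exact isClosed_le continuous_const (by fun_prop)
  obtain ⟨a, b⟩ := h3 _ hcl
  constructor
  · convert a using 1
    ext x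
    simp [Set.Nonempty]
  · convert b using 1
    ext x
    simp

end Pool.Agent.Results.MP_597c46_an.Q2
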